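import Pool.Agent.H320Z.DivProof

set_option autoImplicit false

/-! Recognising strongly 2-divisible graphs is coNP-hard under polynomial-time many-one
reductions. -/

namespace Pool.Agent.Results.MP_65ccf5_lc.CoNPHard

open Pool.Agent.NPC Pool.Agent.NPC.R671 Pool.Agent.H320Z.Div

theorem result (L : Set (List Bool)) (hL : InNP Lᶜ) :
    ∃ (n : List Bool → ℕ) (G : ∀ x, SimpleGraph (Fin (n x))),
      PolyTime (fun x => bits (adjMatrix (G x))) ∧ ∀ x, x ∈ L ↔ StronglyTwoDivisible (G x) :=
  main L hL

end Pool.Agent.Results.MP_65ccf5_lc.CoNPHard
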